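import Pool.Agent.N89.HG.Stm
import Pool.Agent.N362.HX.GEO

/-!
# HG/GEOG: the resolvent is irreducible over `ℂ(x)` (helper595, project HG of helper89)
-/

set_option autoImplicit false

namespace Pool.Agent.N595.HG

open Polynomial Pool.Agent.N89.HX Pool.Agent.N89.HG Pool.Agent.N362.HX

/-! ### Naturality -/

theorem ev_map {O A B : Type} [CommRing O] [CommRing A] [CommRing B] (φ : O →+* A) (κ : A →+* B)
    {k e : ℕ} (h : Fin (e + 1) → MvPolynomial (Fin k) O) (t : Fin k → A) (i : Fin (e + 1)) :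
    κ (ev φ h t i) = ev (κ.comp φ) h (fun j => κ (t j)) i := by
  unfold ev
  rw [MvPolynomial.eval₂_comp_left]
  rfl

theorem rg_map {O A B : Type} [CommRing O] [CommRing A] [CommRing B] (φ : O →+* A) (κ : A →+* B)
    {k e m : ℕ} (R : Fin m → MvPolynomial (Fin k ⊕ Fin e) O) (t : Fin k → A) (ω : Fin e → A) :
    (rg φ R t ω).map κ = rg (κ.comp φ) R (fun j => κ (t j)) (fun j => κ (ω j)) := by
  unfold rg
  rw [Polynomial.map_add, Polynomial.map_sum, Polynomial.map_pow, Polynomial.map_X]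
  congr 1
  refine Finset.sum_congr rfl fun i _ => ?_
  rw [Polynomial.map_mul, Polynomial.map_C, Polynomial.map_pow, Polynomial.map_X]
  congr 2
  rw [MvPolynomial.eval₂_comp_left]
  congr 1
  funext j
  rcases j with j | j <;> rfl

theorem rg_monic {O A : Type} [CommRing O] [CommRing A] [Nontrivial A] (φ : O →+* A)
    {k e m : ℕ} (R : Fin m → MvPolynomial (Fin k ⊕ Fin e) O) (t : Fin k → A) (ω : Fin e → A) :
    (rg φ R t ω).Monic ∧ (rg φ R t ω).natDegree = m := by
  have hd : (∑ i : Fin m,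
      C (MvPolynomial.eval₂ φ (Sum.elim t ω) (R i)) * (X : A[X]) ^ (i : ℕ)).degree
      < (m : WithBot ℕ) := by
    refine lt_of_le_of_lt (degree_sum_le _ _) ?_
    rw [Finset.sup_lt_iff (by exact WithBot.bot_lt_coe _)]
    intro i _
    refine lt_of_le_of_lt (degree_C_mul_X_pow_le _ _) ?_
    exact_mod_cast i.2
  refine ⟨monic_X_pow_add hd, ?_⟩
  unfold rg
  rw [natDegree_add_eq_left_of_degree_lt (by rwa [degree_X_pow]), natDegree_X_pow]

/-! ### Two enumerations of the same roots -/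

theorem perm_of_prod {M : Type} [Field M] {e : ℕ} (W W' : Fin e → M) (hW : Function.Injective W)
    (h : (∏ i, (X - C (W i)) : M[X]) = ∏ i, (X - C (W' i))) :
    ∃ ρ : Equiv.Perm (Fin e), ∀ i, W' i = W (ρ i) := by
  classical
  have h1 : (Finset.univ.val.map W : Multiset M) = Finset.univ.val.map W' := by
    have e1 : ∀ V : Fin e → M, (∏ i, (X - C (V i)) : M[X]).roots = Finset.univ.val.map V := by
      intro V
      have : (∏ i, (X - C (V i)) : M[X]) = ((Finset.univ.val.map V).map fun a => X - C a).prod := by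
        rw [Multiset.map_map]; rfl
      rw [this, roots_multiset_prod_X_sub_C]
    rw [← e1, ← e1, h]
  have hnd : (Finset.univ.val.map W : Multiset M).Nodup :=
    Multiset.Nodup.map hW Finset.univ.nodup
  have hnd' : (Finset.univ.val.map W' : Multiset M).Nodup := h1 ▸ hnd
  have hW' : Function.Injective W' := by
    intro i j hij
    exact Multiset.inj_on_of_nodup_map hnd' i (Finset.mem_univ i) j (Finset.mem_univ j) hij
  have hex : ∀ i, ∃ j, W j = W' i := by
    intro i
    have : W' i ∈ (Finset.univ.val.map W : Multiset M) := by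
      rw [h1]; exact Multiset.mem_map_of_mem _ (Finset.mem_univ i)
    obtain ⟨j, _, hj⟩ := Multiset.mem_map.1 this
    exact ⟨j, hj⟩
  choose ρ hρ using hex
  have hρi : Function.Injective ρ := by
    intro i j hij
    apply hW'
    rw [← hρ, ← hρ, hij]
  exact ⟨Equiv.ofBijective ρ (Finite.injective_iff_bijective.1 hρi), fun i => (hρ i).symm⟩

/-- the resolvent is irreducible if its roots are different -/
theorem irr_field {E : Type} [Field E] {e : ℕ} (𝒢 : Subgroup (Equiv.Perm (Fin e))) [Fintype 𝒢]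
    (P : E[X]) (hmon : P.Monic) (hdeg : P.natDegree = Fintype.card 𝒢)
    (θ : Equiv.Perm (Fin e) → AlgebraicClosure E) (hθ : Function.Injective θ)
    (hP : P.map (algebraMap E (AlgebraicClosure E)) = ∏ τ : 𝒢, (X - C (θ (τ : Equiv.Perm (Fin e)))))
    (ρ : Equiv.Perm (Fin e))
    (hgal : ∀ σ ∈ 𝒢, ∃ g : AlgebraicClosure E ≃ₐ[E] AlgebraicClosure E,
        ∀ τ, g (θ τ) = θ (ρ⁻¹ * σ * ρ * τ)) :
    Irreducible P := by
  classical
  set ψ := algebraMap E (AlgebraicClosure E) with hψ
  -- the conjugates by `ρ` lie in `𝒢`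
  have hroots : ∀ y : AlgebraicClosure E, (P.map ψ).eval y = 0 ↔ ∃ τ ∈ 𝒢, y = θ τ := by
    intro y
    rw [hP, eval_prod, Finset.prod_eq_zero_iff]
    constructor
    · rintro ⟨τ, _, h⟩
      rw [eval_sub, eval_X, eval_C, sub_eq_zero] at h
      exact ⟨τ, τ.2, h⟩
    · rintro ⟨τ, hτ, h⟩
      refine ⟨⟨τ, hτ⟩, Finset.mem_univ _, ?_⟩
      rw [eval_sub, eval_X, eval_C, sub_eq_zero]
      exact h
  have hfix : ∀ (g : AlgebraicClosure E ≃ₐ[E] AlgebraicClosure E) (y : AlgebraicClosure E),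
      (P.map ψ).eval y = 0 → (P.map ψ).eval (g y) = 0 := by
    intro g y hy
    rw [eval_map, ← aeval_def] at hy ⊢
    have h2 : aeval (g y) P = g (aeval y P) :=
      Polynomial.aeval_algHom_apply (g : AlgebraicClosure E →ₐ[E] AlgebraicClosure E) _ _
    rw [h2, hy, map_zero]
  have hmem : ∀ σ ∈ 𝒢, ρ⁻¹ * σ * ρ ∈ 𝒢 := by
    intro σ hσ
    obtain ⟨g, hg⟩ := hgal σ hσ
    have h1 := hfix g (θ 1) ((hroots _).2 ⟨1, 𝒢.one_mem, rfl⟩)
    rw [hg, mul_one] at h1
    obtain ⟨τ, hτ, h2⟩ := (hroots _).1 h1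
    rw [hθ h2]
    exact hτ
  let c : 𝒢 → 𝒢 := fun σ => ⟨ρ⁻¹ * σ * ρ, hmem σ σ.2⟩
  have hc : Function.Injective c := by
    intro σ σ' h
    have h1 : ρ⁻¹ * (σ : Equiv.Perm (Fin e)) * ρ = ρ⁻¹ * σ' * ρ := congrArg Subtype.val h
    exact Subtype.ext (mul_left_cancel (mul_right_cancel h1))
  have hcs : Function.Surjective c := (Finite.injective_iff_surjective).1 hc
  have hint : IsIntegral E (θ 1) := Algebra.IsIntegral.isIntegral _
  have hroot : aeval (θ 1) P = 0 := by
    rw [aeval_def, ← eval_map]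
    exact (hroots _).2 ⟨1, 𝒢.one_mem, rfl⟩
  have hdvd : minpoly E (θ 1) ∣ P := minpoly.dvd _ _ hroot
  have hconj : ∀ σ : 𝒢, aeval (θ σ) (minpoly E (θ 1)) = 0 := by
    intro σ
    obtain ⟨σ', hσ'⟩ := hcs σ
    obtain ⟨g, hg⟩ := hgal σ' σ'.2
    have h1 : g (θ 1) = θ σ := by
      rw [hg, mul_one]
      congr 1
      exact congrArg Subtype.val hσ'
    rw [← h1]
    have h2 : aeval (g (θ 1)) (minpoly E (θ 1)) = g (aeval (θ 1) (minpoly E (θ 1))) := by
      exact Polynomial.aeval_algHom_apply (g : AlgebraicClosure E →ₐ[E] AlgebraicClosure E) _ _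
    rw [h2, minpoly.aeval, map_zero]
  have hcard : Fintype.card 𝒢 ≤ (minpoly E (θ 1)).natDegree := by
    have h1 : (Finset.univ.image fun σ : 𝒢 => θ σ).card = Fintype.card 𝒢 := by
      have hinj' : Function.Injective (fun σ : 𝒢 => θ σ) := hθ.comp Subtype.val_injective
      rw [Finset.card_image_of_injective _ hinj', Finset.card_univ]
    have h2 : ((minpoly E (θ 1)).map ψ) ≠ 0 := (minpoly.monic hint).map ψ |>.ne_zero
    have h3 : (Finset.univ.image fun σ : 𝒢 => θ σ).val ⊆ ((minpoly E (θ 1)).map ψ).roots := by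
      intro y hy
      rw [Finset.mem_val, Finset.mem_image] at hy
      obtain ⟨σ, _, rfl⟩ := hy
      rw [mem_roots h2, IsRoot.def, eval_map]
      exact hconj σ
    have h4 := card_le_degree_of_subset_roots h3
    rw [natDegree_map] at h4
    omega
  have heq : P = minpoly E (θ 1) :=
    eq_of_monic_of_dvd_of_natDegree_le (minpoly.monic hint) hmon hdvd (by rw [hdeg]; exact hcard)
  rw [heq]
  exact minpoly.irreducible hint

theorem mono_eq' {M : Type} [Field M] {e : ℕ} (f : Fin (e + 1) → M) (x : Fin e → M)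
    (h0 : f (Fin.last e) ≠ 0) (hf : pol f = C (f (Fin.last e)) * ∏ i, (X - C (x i))) :
    mono f = ∏ i, (X - C (f (Fin.last e) * x i)) := by
  rcases Nat.eq_zero_or_pos e with he | he
  · subst he
    simp [mono]
  · exact mono_eq he f x h0 hf

theorem aeval_zero {A M : Type} [CommRing A] [Field M] (κ : A →+* M) {n : ℕ}
    (f : Fin n → A) (D : MvPolynomial (Fin n) ℤ) (h : MvPolynomial.aeval f D = 0) :
    MvPolynomial.aeval (fun i => κ (f i)) D = 0 := by
  rw [MvPolynomial.aeval_def] at h ⊢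
  have h3 := congrArg κ h
  rw [MvPolynomial.eval₂_comp_left, map_zero] at h3
  have e1 : algebraMap ℤ M = κ.comp (algebraMap ℤ A) := Subsingleton.elim _ _
  rw [e1]
  exact h3

theorem main : S_GEOG := by
  intro O _ k e h 𝒢 _ R D φ y v x hD hroots hgal
  classical
  set Φ : O →+* ℂ[X] := (C : ℂ →+* ℂ[X]).comp φ with hΦ
  set α : ℂ[X] →+* RatFunc ℂ := algebraMap ℂ[X] (RatFunc ℂ) with hα
  set ψ : RatFunc ℂ →+* AlgebraicClosure (RatFunc ℂ) :=
    algebraMap (RatFunc ℂ) (AlgebraicClosure (RatFunc ℂ)) with hψ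
  set f : Fin (e + 1) → RatFunc ℂ := fun i => α (ev Φ h (pt y v) i) with hf
  obtain ⟨h0, hinj, hpol⟩ := hroots
  set a := f (Fin.last e) with ha
  have ha0 : ψ a ≠ 0 := by
    intro h
    exact h0 ((map_eq_zero ψ).1 h)
  rw [pol_map] at hpol
  have hmono := mono_eq' (fun i => ψ (f i)) x ha0 hpol
  set W : Fin e → AlgebraicClosure (RatFunc ℂ) := fun i => ψ a * x i with hW
  have hWinj : Function.Injective W := fun i j hij => hinj (mul_left_cancel₀ ha0 hij)
  constructor
  · intro h1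
    have h2 := (hD _ (fun i => ψ (f i)) W hmono).1 (aeval_zero (ψ.comp α) _ D h1)
    rcases h2 with h4 | h4
    · exact ha0 h4
    · exact h4 hWinj
  · obtain ⟨W', hadm, hres⟩ := R.spec (AlgebraicClosure (RatFunc ℂ)) ((ψ.comp α).comp Φ)
      (fun j => (ψ.comp α) (pt y v j))
    have hev : ev ((ψ.comp α).comp Φ) h (fun j => (ψ.comp α) (pt y v j)) = fun i => ψ (f i) := by
      funext i
      rw [← ev_map]
      rfl
    rw [hev, hmono] at hadm
    obtain ⟨ρ, hρ⟩ := perm_of_prod W W' hWinj hadm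
    have hW'inj : Function.Injective W' := by
      intro i j hij
      rw [hρ, hρ] at hij
      exact ρ.injective (hWinj hij)
    obtain ⟨ω, hω⟩ := exists_sep (k := ℂ) W' hW'inj
    refine ⟨ω, ?_⟩
    obtain ⟨hmon, _⟩ := rg_monic Φ R.R (pt y v) (fun i => (C (ω i) : ℂ[X]))
    rw [hmon.irreducible_iff_irreducible_map_fraction_map (K := RatFunc ℂ), rg_map]
    have halg : ∀ i, ψ (α (C (ω i))) = algebraMap ℂ (AlgebraicClosure (RatFunc ℂ)) (ω i) := by
      intro i
      rw [IsScalarTower.algebraMap_apply ℂ (RatFunc ℂ) (AlgebraicClosure (RatFunc ℂ)),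
        IsScalarTower.algebraMap_apply ℂ ℂ[X] (RatFunc ℂ)]
      rfl
    have hm0 : (R.m : AlgebraicClosure (RatFunc ℂ)) ≠ 0 := by
      have : CharZero (AlgebraicClosure (RatFunc ℂ)) :=
        charZero_of_injective_algebraMap (algebraMap ℂ (AlgebraicClosure (RatFunc ℂ))).injective
      exact_mod_cast R.m_ne
    set θ : Equiv.Perm (Fin e) → AlgebraicClosure (RatFunc ℂ) :=
      fun τ => ∑ i, ψ (α (C (ω i))) * ((R.m : AlgebraicClosure (RatFunc ℂ)) * W' (τ i)) with hθ
    have hθinj : Function.Injective θ := by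
      intro τ τ' h1
      apply hω
      have h2 : ∀ τ : Equiv.Perm (Fin e), θ τ = (R.m : AlgebraicClosure (RatFunc ℂ)) *
          ∑ i, algebraMap ℂ (AlgebraicClosure (RatFunc ℂ)) (ω i) * W' (τ i) := by
        intro τ
        rw [hθ, Finset.mul_sum]
        refine Finset.sum_congr rfl fun i _ => ?_
        rw [halg]
        ring
      rw [h2, h2] at h1
      exact mul_left_cancel₀ hm0 h1
    refine irr_field 𝒢 _ (rg_monic _ _ _ _).1 (rg_monic _ _ _ _).2 θ hθinj ?_ ρ ?_
    · rw [rg_map]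
      have := hres (fun i => ψ (α (C (ω i))))
      rw [hθ]
      exact this
    · intro σ hσ
      obtain ⟨g, hg⟩ := hgal σ hσ
      refine ⟨g, fun τ => ?_⟩
      have h1 : ∀ i, g (W' i) = W' ((ρ⁻¹ * σ * ρ) i) := by
        intro i
        rw [hρ, hρ]
        simp only [hW, map_mul, Equiv.Perm.mul_apply]
        rw [hψ, AlgEquiv.commutes, hg]
        congr 2
        simp
      rw [hθ]
      simp only [map_sum, map_mul]
      refine Finset.sum_congr rfl fun i _ => ?_
      rw [hψ, AlgEquiv.commutes, map_natCast, h1]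
      rfl

end Pool.Agent.N595.HG
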